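import Mathlib
import Pool.Agent.Lib.MP_32845f_nt.Core

/-!
Problem MP_32845f_nt, Q1: Sidon sets which are large at the two scales `N` and `N^(2/3)` at the
same time, with constant factors in place of `N^ε`.
-/

set_option autoImplicit false

namespace Pool.Agent.Results.MP_32845f_nt.TwoScales

/-- A finite set of natural numbers is a Sidon set: `a + b = c + d` with `a, b, c, d` in it forces
`{a, b} = {c, d}`. -/
def IsSidon (A : Finset ℕ) : Prop :=
  ∀ a ∈ A, ∀ b ∈ A, ∀ c ∈ A, ∀ d ∈ A, a + b = c + d → ({a, b} : Set ℕ) = {c, d}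

/-- For every `N ≥ 1` there is a Sidon set `A` of integers between `1` and `N` with at least
`N^(1/2) / 8000` elements, at least `N^(1/3) / 800` of which are at most `N^(2/3)`. -/
theorem result (N : ℕ) (hN : 1 ≤ N) :
    ∃ A : Finset ℕ, (∀ a ∈ A, 1 ≤ a ∧ a ≤ N) ∧ IsSidon A ∧
      Real.sqrt N / 8000 ≤ (A.card : ℝ) ∧
      (N : ℝ) ^ (1 / 3 : ℝ) / 800 ≤
        ((A.filter (fun a : ℕ => (a : ℝ) ≤ (N : ℝ) ^ (2 / 3 : ℝ))).card : ℝ) := by
  have hNpos : (0 : ℝ) < (N : ℝ) := by exact_mod_cast hN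
  have hN1 : (1 : ℝ) ≤ (N : ℝ) := by exact_mod_cast hN
  set x : ℝ := (N : ℝ) ^ ((1 : ℝ) / 6) with hx
  have hx0 : 0 ≤ x := Real.rpow_nonneg hNpos.le _
  have hxpow : ∀ m : ℕ, x ^ m = (N : ℝ) ^ ((m : ℝ) / 6) := by
    intro m
    rw [hx, ← Real.rpow_natCast, ← Real.rpow_mul hNpos.le]
    congr 1
    ring
  have hx6 : x ^ 6 = N := by
    rw [hxpow 6]
    norm_num
  have hx4 : x ^ 4 = (N : ℝ) ^ ((2 : ℝ) / 3) := by
    rw [hxpow 4]
    norm_num
  have hx3 : x ^ 3 = Real.sqrt N := by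
    rw [hxpow 3, Real.sqrt_eq_rpow]
    norm_num
  have hx2 : x ^ 2 = (N : ℝ) ^ ((1 : ℝ) / 3) := by
    rw [hxpow 2]
    norm_num
  rw [← hx3, ← hx2, ← hx4]
  rcases lt_or_ge N (20 ^ 6) with hsmall | hN20
  · -- small `N`
    refine ⟨{1}, ?_, ?_, ?_, ?_⟩
    · intro a ha
      rw [Finset.mem_singleton] at ha
      subst ha
      exact ⟨le_rfl, hN⟩
    · intro a ha b hb c hc d hd _
      rw [Finset.mem_singleton] at ha hb hc hd
      rw [ha, hb, hc, hd]
    · have hx20 : x ≤ 20 := by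
        have h1 : x ^ 6 ≤ (20 : ℝ) ^ 6 := by
          rw [hx6]
          exact_mod_cast hsmall.le
        exact le_of_pow_le_pow_left₀ (by norm_num) (by norm_num) h1
      have h3 : x ^ 3 ≤ 20 ^ 3 := pow_le_pow_left₀ hx0 hx20 3
      rw [Finset.card_singleton]
      push_cast
      linarith
    · have hx20 : x ≤ 20 := by
        have h1 : x ^ 6 ≤ (20 : ℝ) ^ 6 := by
          rw [hx6]
          exact_mod_cast hsmall.le
        exact le_of_pow_le_pow_left₀ (by norm_num) (by norm_num) h1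
      have h2 : x ^ 2 ≤ 20 ^ 2 := pow_le_pow_left₀ hx0 hx20 2
      have hx4' : (1 : ℝ) ≤ x ^ 4 := by
        rw [hx4]
        exact Real.one_le_rpow hN1 (by norm_num)
      have hf : ({1} : Finset ℕ).filter (fun a : ℕ => (a : ℝ) ≤ x ^ 4) = {1} := by
        rw [Finset.filter_eq_self]
        intro a ha
        rw [Finset.mem_singleton] at ha
        subst ha
        push_cast
        exact hx4'
      rw [hf, Finset.card_singleton]
      push_cast
      linarith
  · have hx20 : 20 ≤ x := by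
      have h1 : (20 : ℝ) ^ 6 ≤ x ^ 6 := by
        rw [hx6]
        exact_mod_cast hN20
      exact le_of_pow_le_pow_left₀ (by norm_num) hx0 h1
    set n : ℕ := ⌊x / 5⌋₊ with hn
    have hn1 : (n : ℝ) ≤ x / 5 := Nat.floor_le (by positivity)
    have hn2 : x / 5 < n + 1 := Nat.lt_floor_add_one _
    have hn3 : x / 10 ≤ n := by linarith
    have hn4 : 4 ≤ n := by
      apply Nat.le_floor
      norm_num
      linarith
    obtain ⟨q, hq, hnq, hq2n⟩ := Nat.exists_prime_lt_and_le_two_mul n (by omega)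
    obtain ⟨A, hA1, hA2, hA3, hA4⟩ :=
      Pool.Agent.Lib.MP_32845f_nt.core q hq (by omega) (n / 4) (by omega)
    have hqx : (2 * q : ℝ) ≤ 4 * x / 5 := by
      have : (q : ℝ) ≤ 2 * n := by exact_mod_cast hq2n
      linarith
    have hq0 : (0 : ℝ) ≤ 2 * q := by positivity
    have hbound6 : 3 * (2 * q) ^ 6 ≤ N := by
      have h1 : ((2 * q : ℝ)) ^ 6 ≤ (4 * x / 5) ^ 6 := pow_le_pow_left₀ hq0 hqx 6
      have h2 : (4 * x / 5) ^ 6 = 4096 / 15625 * N := by
        rw [← hx6]; ring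
      have h3 : (3 * (2 * q : ℝ) ^ 6) ≤ N := by
        rw [h2] at h1
        linarith
      exact_mod_cast h3
    have hbound4 : ((2 * q : ℝ)) ^ 4 ≤ x ^ 4 := by
      calc ((2 * q : ℝ)) ^ 4 ≤ (4 * x / 5) ^ 4 := pow_le_pow_left₀ hq0 hqx 4
        _ ≤ x ^ 4 := by
          apply pow_le_pow_left₀ (by positivity)
          linarith
    have hk : n ≤ 8 * (n / 4) := by omega
    have hcard1 : n ^ 3 ≤ 8 * A.card := by
      calc n ^ 3 = n * n * n := by ring
        _ ≤ q * (q - 1) * (8 * (n / 4)) := by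
            apply Nat.mul_le_mul _ hk
            exact Nat.mul_le_mul hnq.le (by omega)
        _ = 8 * (q * (q - 1) * (n / 4)) := by ring
        _ ≤ 8 * A.card := Nat.mul_le_mul_left _ hA3
    have hcard2 : n ^ 2 ≤ 8 * (A.filter (fun a : ℕ => (a : ℝ) ≤ x ^ 4)).card := by
      calc n ^ 2 = n * n := by ring
        _ ≤ q * (8 * (n / 4)) := Nat.mul_le_mul hnq.le hk
        _ = 8 * (q * (n / 4)) := by ring
        _ ≤ 8 * (A ∩ Finset.Icc 1 ((2 * q) ^ 4)).card := Nat.mul_le_mul_left _ hA4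
        _ ≤ _ := by
            apply Nat.mul_le_mul_left
            apply Finset.card_le_card
            intro a ha
            rw [Finset.mem_inter, Finset.mem_Icc] at ha
            rw [Finset.mem_filter]
            refine ⟨ha.1, le_trans ?_ hbound4⟩
            exact_mod_cast ha.2.2
    refine ⟨A, ?_, ?_, ?_, ?_⟩
    · intro a ha
      have := Finset.mem_Icc.1 (hA1 ha)
      exact ⟨this.1, this.2.trans hbound6⟩
    · intro a ha b hb c hc d hd h
      rcases hA2 a ha b hb c hc d hd h with ⟨h1, h2⟩ | ⟨h1, h2⟩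
      · rw [h1, h2]
      · rw [h1, h2, Set.pair_comm]
    · have h1 : ((n : ℝ)) ^ 3 ≤ 8 * A.card := by exact_mod_cast hcard1
      have h2 : (x / 10) ^ 3 ≤ (n : ℝ) ^ 3 := pow_le_pow_left₀ (by positivity) hn3 3
      have h3 : (x / 10) ^ 3 = x ^ 3 / 1000 := by ring
      linarith
    · have h1 : ((n : ℝ)) ^ 2 ≤ 8 * (A.filter (fun a : ℕ => (a : ℝ) ≤ x ^ 4)).card := by
        exact_mod_cast hcard2
      have h2 : (x / 10) ^ 2 ≤ (n : ℝ) ^ 2 := pow_le_pow_left₀ (by positivity) hn3 2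
      have h3 : (x / 10) ^ 2 = x ^ 2 / 100 := by ring
      linarith

end Pool.Agent.Results.MP_32845f_nt.TwoScales
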